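import Pool.Agent.helper18.KU.Spec

set_option autoImplicit false

namespace Pool.Agent.KU

open Finset

noncomputable section

theorem EIN_ins {V : Type} [DecidableEq V] (w : V → V → ℕ) (hw : Sy w) (T : Finset V) (v : V) (hv : v ∉ T) :
    ∑ u ∈ insert v T, ∑ z ∈ insert v T, w u z = (∑ u ∈ T, ∑ z ∈ T, w u z) + 2 * dg w T v := by
  have h1 : ∀ u, ∑ z ∈ insert v T, w u z = w u v + ∑ z ∈ T, w u z := fun u => sum_insert hv
  rw [sum_insert hv, h1 v, hw.loop v]
  simp only [h1]
  rw [sum_add_distrib]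
  have h2 : ∑ u ∈ T, w u v = ∑ z ∈ T, w v z := Finset.sum_congr rfl fun u _ => hw.symm u v
  rw [h2]
  unfold dg
  ring

theorem EIN_two {V : Type} [DecidableEq V] (w : V → V → ℕ) (hw : Sy w) (T : Finset V) :
    2 * E w T = ∑ u ∈ T, ∑ v ∈ T, w u v := by
  have h : 2 ∣ ∑ u ∈ T, ∑ v ∈ T, w u v := by
    induction T using Finset.induction_on with
    | empty => simp
    | insert v T hv ih =>
      rw [EIN_ins w hw T v hv]
      exact Dvd.dvd.add ih (Dvd.intro _ rfl)
  unfold E
  omega

theorem EIN_insE {V : Type} [DecidableEq V] (w : V → V → ℕ) (hw : Sy w) (T : Finset V) (v : V) (hv : v ∉ T) :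
    E w (insert v T) = E w T + dg w T v := by
  have h1 := EIN_two w hw (insert v T)
  have h2 := EIN_two w hw T
  have h3 := EIN_ins w hw T v hv
  omega

theorem EIN : EIN_stmt := by
  intro V _ w hw
  have hsing : ∀ v, E w {v} = 0 := by
    intro v
    have h := EIN_two w hw {v}
    rw [sum_singleton, sum_singleton, hw.loop v] at h
    omega
  have hpair : ∀ a b, a ≠ b → E w {a, b} = w a b := by
    intro a b hab
    have h := EIN_insE w hw {b} a (by simp [hab])
    rw [hsing b] at h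
    rw [h]
    unfold dg
    rw [sum_singleton]
    omega
  refine ⟨EIN_two w hw, by simp [E], hsing, EIN_insE w hw, hpair, ?_, ?_, ?_, ?_⟩
  · intro a b c hab hac hbc
    have h := EIN_insE w hw {b, c} a (by simp [hab, hac])
    have e : E w ({a, b, c} : Finset V) = E w (insert a {b, c}) := rfl
    rw [e, h, hpair b c hbc]
    unfold dg
    rw [sum_insert (by simp [hbc]), sum_singleton]
    omega
  · intro A B hAB
    have h1 := EIN_two w hw (A ∪ B)
    have h2 := EIN_two w hw A
    have h3 := EIN_two w hw B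
    have h4 : ∑ u ∈ A ∪ B, ∑ v ∈ A ∪ B, w u v
        = (∑ u ∈ A, ∑ v ∈ A, w u v) + (∑ u ∈ B, ∑ v ∈ B, w u v) + 2 * ∑ u ∈ A, dg w B u := by
      have h5 : ∀ u, ∑ v ∈ A ∪ B, w u v = (∑ v ∈ A, w u v) + ∑ v ∈ B, w u v := fun u => sum_union hAB
      rw [sum_union hAB]
      simp only [h5]
      rw [sum_add_distrib, sum_add_distrib]
      have h6 : ∑ u ∈ B, ∑ v ∈ A, w u v = ∑ u ∈ A, ∑ v ∈ B, w u v := by
        rw [sum_comm]
        exact sum_congr rfl fun x _ => sum_congr rfl fun y _ => hw.symm y x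
      rw [h6]
      unfold dg
      ring
    omega
  · intro A B hAB
    have h2 := EIN_two w hw A
    have h3 := EIN_two w hw B
    have h4 : ∑ u ∈ A, ∑ v ∈ A, w u v ≤ ∑ u ∈ B, ∑ v ∈ B, w u v :=
      (sum_le_sum fun u _ => sum_le_sum_of_subset hAB).trans (sum_le_sum_of_subset hAB)
    omega
  · intro T
    rw [EIN_two w hw T]
    rfl

end

end Pool.Agent.KU
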