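import Pool.Agent.helper18.KU.Spec

set_option autoImplicit false

namespace Pool.Agent.KU

open Finset

noncomputable section

theorem F4_three {V : Type} [DecidableEq V] (g : V → ℕ) (Q : Finset V) (a b c : V) (ha : a ∈ Q) (hb : b ∈ Q) (hc : c ∈ Q)
    (hab : a ≠ b) (hac : a ≠ c) (hbc : b ≠ c) : g a + g b + g c ≤ ∑ u ∈ Q, g u := by
  have h : ∑ u ∈ ({a, b, c} : Finset V), g u ≤ ∑ u ∈ Q, g u := by
    apply Finset.sum_le_sum_of_subset
    intro u hu
    simp only [mem_insert, mem_singleton] at hu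
    rcases hu with rfl | rfl | rfl <;> assumption
  rw [sum_insert (by simp [hab, hac]), sum_insert (by simp [hbc]), sum_singleton] at h
  omega

theorem F4_aux (hEIN : EIN_stmt) (hF1 : F1_stmt) {V : Type} [DecidableEq V] (S : Finset V) (X : V → ℕ) (w : V → V → ℕ)
    (hC : Cone S X w) (hI : Irr S X w) (h5 : 5 ≤ S.card) (hD : CrDj S w) (v : V) (hv : v ∈ S)
    (hvQ : ∀ Q, Crit S w Q → v ∉ Q) (a b c d : V) (hcS : c ∈ S) (hdS : d ∈ S) (hva : v ≠ a) (hvb : v ≠ b)
    (hvc : v ≠ c) (hvd : v ≠ d) (hab : a ≠ b) (hac : a ≠ c) (had : a ≠ d) (hbc : b ≠ c) (hbd : b ≠ d) (hcd : c ≠ d)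
    (ka : 1 ≤ w v a) (kb : 1 ≤ w v b) (kc : 1 ≤ w v c) (kd : 1 ≤ w v d) (bc : Blk S w a c) (bd : Blk S w a d)
    (Q : Finset V) (hQ : Crit S w Q) (haQ : a ∈ Q) (hbQ : b ∈ Q) : False := by
  have hvn : v ∉ Q := hvQ Q hQ
  have h1 := hF1 V S X w hC hI h5 Q hQ v hv hvn
  have hXv := hC.root v hv
  have hsum : dg w Q v = ∑ u ∈ Q, w v u := rfl
  have hcn : c ∉ Q := by
    intro hc
    have := F4_three (w v) Q a b c haQ hbQ hc hab hac hbc
    omega
  have hdn : d ∉ Q := by
    intro hd
    have := F4_three (w v) Q a b d haQ hbQ hd hab had hbd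
    omega
  have hwac : w a c = 2 := by
    rcases bc with h | ⟨Q', hQ', h1, h2⟩
    · exact h
    · exfalso
      have hne : Q ≠ Q' := fun h => hcn (h ▸ h2)
      exact (Finset.disjoint_left.1 (hD Q Q' hQ hQ' hne)) haQ h1
  have hwad : w a d = 2 := by
    rcases bd with h | ⟨Q', hQ', h1, h2⟩
    · exact h
    · exfalso
      have hne : Q ≠ Q' := fun h => hdn (h ▸ h2)
      exact (Finset.disjoint_left.1 (hD Q Q' hQ hQ' hne)) haQ h1
  obtain ⟨-, -, -, e1, -, e3, e4, -, -⟩ := hEIN V w hC.sy
  have hdisj : Disjoint Q ({v, c, d} : Finset V) := by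
    rw [Finset.disjoint_right]
    intro u hu
    simp only [mem_insert, mem_singleton] at hu
    rcases hu with rfl | rfl | rfl <;> assumption
  have hE := e4 Q {v, c, d} hdisj
  have hE3 := e3 v c d hvc hvd hcd
  have hQ5 : E w Q = 5 := hQ.2.2
  have hdg : ∀ u, dg w {v, c, d} u = w u v + w u c + w u d := by
    intro u
    unfold dg
    rw [sum_insert (by simp [hvc, hvd]), sum_insert (by simp [hcd]), sum_singleton]
    ring
  have hs2 : dg w {v, c, d} a + dg w {v, c, d} b ≤ ∑ u ∈ Q, dg w {v, c, d} u := by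
    have h : ∑ u ∈ ({a, b} : Finset V), dg w {v, c, d} u ≤ ∑ u ∈ Q, dg w {v, c, d} u := by
      apply Finset.sum_le_sum_of_subset
      intro u hu
      simp only [mem_insert, mem_singleton] at hu
      rcases hu with rfl | rfl <;> assumption
    rw [sum_insert (by simp [hab]), sum_singleton] at h
    exact h
  rw [hdg a, hdg b] at hs2
  have s1 := hC.sy.symm a v
  have s2 := hC.sy.symm b v
  have hEge : 13 ≤ E w (Q ∪ {v, c, d}) := by omega
  have hsub : Q ∪ {v, c, d} ⊆ S := by
    intro u hu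
    rw [mem_union] at hu
    rcases hu with hu | hu
    · exact hQ.1 hu
    · simp only [mem_insert, mem_singleton] at hu
      rcases hu with rfl | rfl | rfl <;> assumption
  have hf := hC.iv _ hsub
  have hcard3 : ({v, c, d} : Finset V).card = 3 := by
    rw [card_insert_of_notMem (by simp [hvc, hvd]), card_insert_of_notMem (by simp [hcd]), card_singleton]
  have hcard : (Q ∪ {v, c, d}).card = 6 := by
    rw [card_union_of_disjoint hdisj, hQ.2.1, hcard3]
  have hX : ((Q ∪ {v, c, d}).card : ℤ) ≤ ∑ u ∈ Q ∪ {v, c, d}, (X u : ℤ) := by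
    rw [card_eq_sum_ones, Nat.cast_sum]
    apply Finset.sum_le_sum
    intro u hu
    exact_mod_cast hC.root u (hsub hu)
  unfold f at hf
  rw [hcard] at hf hX
  push_cast at hf hX
  omega

theorem F4 (hEIN : EIN_stmt) (hF1 : F1_stmt) : F4_stmt := by
  intro V _ S X w hC hI h5 hD v hv hvQ a ha b hb c hc d hd hva hvb hvc hvd hab hac had hbc hbd hcd ka kb kc kd Bab Bac Bad
  have hwab : w a b = 2 := by
    rcases Bab with h | ⟨Q, hQ, h1, h2⟩
    · exact h
    · exact (F4_aux hEIN hF1 S X w hC hI h5 hD v hv hvQ a b c d hc hd hva hvb hvc hvd hab hac had hbc hbd hcd ka kb kc kd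
        Bac Bad Q hQ h1 h2).elim
  have hwac : w a c = 2 := by
    rcases Bac with h | ⟨Q, hQ, h1, h2⟩
    · exact h
    · exact (F4_aux hEIN hF1 S X w hC hI h5 hD v hv hvQ a c b d hb hd hva hvc hvb hvd hac hab had hbc.symm hcd hbd ka kc kb kd
        (Or.inl hwab) Bad Q hQ h1 h2).elim
  have hwad : w a d = 2 := by
    rcases Bad with h | ⟨Q, hQ, h1, h2⟩
    · exact h
    · exact (F4_aux hEIN hF1 S X w hC hI h5 hD v hv hvQ a d b c hb hc hva hvd hvb hvc had hab hac hbd.symm hcd.symm hbc ka kd kb kc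
        (Or.inl hwab) (Or.inl hwac) Q hQ h1 h2).elim
  obtain ⟨-, -, -, e1, -, e3, -, -, -⟩ := hEIN V w hC.sy
  have n1 : a ∉ ({b, c, d} : Finset V) := by simp [hab, hac, had]
  have n2 : v ∉ ({a, b, c, d} : Finset V) := by simp [hva, hvb, hvc, hvd]
  have E1 := e1 {b, c, d} a n1
  have E2 := e1 {a, b, c, d} v n2
  have d1 : dg w {b, c, d} a = w a b + w a c + w a d := by
    unfold dg
    rw [sum_insert (by simp [hbc, hbd]), sum_insert (by simp [hcd]), sum_singleton]
    ring
  have d2 : dg w {a, b, c, d} v = w v a + w v b + w v c + w v d := by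
    unfold dg
    rw [sum_insert (by simp [hab, hac, had]), sum_insert (by simp [hbc, hbd]), sum_insert (by simp [hcd]), sum_singleton]
    ring
  have hEge : 10 ≤ E w {v, a, b, c, d} := by
    have e : E w ({v, a, b, c, d} : Finset V) = E w (insert v {a, b, c, d}) := rfl
    have e' : E w ({a, b, c, d} : Finset V) = E w (insert a {b, c, d}) := rfl
    omega
  have hsub : ({v, a, b, c, d} : Finset V) ⊆ S := by
    intro u hu
    simp only [mem_insert, mem_singleton] at hu
    rcases hu with rfl | rfl | rfl | rfl | rfl <;> assumption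
  have hcard : ({v, a, b, c, d} : Finset V).card = 5 := by
    rw [card_insert_of_notMem n2, card_insert_of_notMem n1, card_insert_of_notMem (by simp [hbc, hbd]),
      card_insert_of_notMem (by simp [hcd]), card_singleton]
  have hXs : ∑ u ∈ ({v, a, b, c, d} : Finset V), (X u : ℤ) = X v + X a + X b + X c + X d := by
    rw [sum_insert n2, sum_insert n1, sum_insert (by simp [hbc, hbd]), sum_insert (by simp [hcd]), sum_singleton]
    ring
  have x1 := hC.root v hv
  have x2 := hC.root a ha
  have x3 := hC.root b hb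
  have x4 := hC.root c hc
  have x5 := hC.root d hd
  have hfe : f X w {v, a, b, c, d} = 15 - (E w {v, a, b, c, d} : ℤ) - (X v + X a + X b + X c + X d) := by
    unfold f
    rw [hcard, hXs]
    norm_num
  have hS : S = {v, a, b, c, d} := by
    by_contra hne
    have h := (hI {v, a, b, c, d} hsub ⟨v, by simp⟩ (fun h => hne h.symm)).1
    rw [hfe] at h
    omega
  have htot := hC.tot
  have hES : E w S = E w {v, a, b, c, d} := by rw [← hS]
  have hfS : f X w S = f X w {v, a, b, c, d} := by rw [← hS]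
  rw [hfS, hfe] at htot
  refine ⟨hS, hwab, hwac, hwad, by omega, ?_⟩
  intro u hu
  rw [hS] at hu
  simp only [mem_insert, mem_singleton] at hu
  rcases hu with rfl | rfl | rfl | rfl | rfl <;> omega

end

end Pool.Agent.KU
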